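import Mathlib

set_option autoImplicit false

namespace Pool.Agent.Results.MP_dceaed_al.Classification

open Bornology

/-- real quaternions -/
abbrev H := Quaternion ℝ

/-- the `φ`-numerical range `W_φ^{(α)}(A) = {x_φ A x : x_φ x = α}` -/
def W (φ : H →ₗ[ℝ] H) (α : H) {n : ℕ} (A : Matrix (Fin n) (Fin n) H) : Set H :=
  {w | ∃ x : Fin n → H, ∑ i, φ (x i) * x i = α ∧ ∑ i, ∑ j, φ (x i) * A i j * x j = w}

/-- units triple -/
def Triple (q₁ q₂ q₃ : H) : Prop :=
  q₁ * q₁ = -1 ∧ q₂ * q₂ = -1 ∧ q₃ * q₃ = -1 ∧ q₁ * q₂ = q₃ ∧ q₂ * q₁ = -q₃ ∧ q₂ * q₃ = q₁ ∧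
    q₃ * q₂ = -q₁ ∧ q₃ * q₁ = q₂ ∧ q₁ * q₃ = -q₂

def f0 : H →ₗ[ℝ] H where
  toFun x := ⟨x.re, -x.imI, x.imJ, x.imK⟩
  map_add' x y := by ext <;> simp; ring
  map_smul' c x := by ext <;> simp

@[simp] theorem f0r (x : H) : (f0 x).re = x.re := rfl
@[simp] theorem f0i (x : H) : (f0 x).imI = -x.imI := rfl
@[simp] theorem f0j (x : H) : (f0 x).imJ = x.imJ := rfl
@[simp] theorem f0k (x : H) : (f0 x).imK = x.imK := rfl

@[simp] theorem z1 : (0 : H).re = 0 := rfl
@[simp] theorem z2 : (0 : H).imI = 0 := rfl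
@[simp] theorem z3 : (0 : H).imJ = 0 := rfl
@[simp] theorem z4 : (0 : H).imK = 0 := rfl
@[simp] theorem o1 : (1 : H).re = 1 := rfl
@[simp] theorem o2 : (1 : H).imI = 0 := rfl
@[simp] theorem o3 : (1 : H).imJ = 0 := rfl
@[simp] theorem o4 : (1 : H).imK = 0 := rfl

theorem f0_mul (x y : H) : f0 (x * y) = f0 y * f0 x := by ext <;> simp <;> ring

variable {n : ℕ}

noncomputable def B (A : Matrix (Fin n) (Fin n) H) (x y : Fin n → H) : H :=
  ∑ i, ∑ j, f0 (x i) * A i j * y j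

theorem B_one (x y : Fin n → H) : B 1 x y = ∑ i, f0 (x i) * y i := by
  simp [B, Matrix.one_apply]

theorem B_add (A : Matrix (Fin n) (Fin n) H) (x x' y y' : Fin n → H) :
    B A (x + x') (y + y') = B A x y + B A x y' + B A x' y + B A x' y' := by
  simp only [B, Pi.add_apply, map_add, add_mul, mul_add, Finset.sum_add_distrib]; abel

theorem B_r (A : Matrix (Fin n) (Fin n) H) (x y : Fin n → H) (c : H) :
    B A x (fun i => y i * c) = B A x y * c := by
  simp only [B, Finset.sum_mul, mul_assoc]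

theorem B_l (A : Matrix (Fin n) (Fin n) H) (x y : Fin n → H) (c : H) :
    B A (fun i => x i * c) y = f0 c * B A x y := by
  simp only [B, Finset.mul_sum, mul_assoc, f0_mul]

theorem B_single (A : Matrix (Fin n) (Fin n) H) (i j : Fin n) (p q : H) :
    B A (Pi.single i p) (Pi.single j q) = f0 p * A i j * q := by
  unfold B
  rw [Finset.sum_eq_single i, Finset.sum_eq_single j] <;> simp +contextual [Pi.single_apply]

theorem f0_coe (t : ℝ) : f0 (t : H) = t := by ext <;> simp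

theorem key1 {α : H} (hα : f0 α = α) {A : Matrix (Fin n) (Fin n) H} (hb : IsBounded (W f0 α A))
    (y z : Fin n → H) (g : ℝ) (hg : g ≠ 0) (h1 : B 1 y y = 0) (h2 : B 1 z z = 0)
    (h3 : B 1 y z = g) (h4 : B 1 z y = g) : B A y y = 0 := by
  obtain ⟨R, hR⟩ := hb.exists_norm_le
  let c : H := (2 * g)⁻¹ • α
  have hc : f0 c = c := by simp [c, hα]
  have key : ∀ t : ℝ, 1 ≤ t → t ^ 2 * ‖B A y y‖ ≤
      R + ‖B A y z * c + c * B A z y‖ + ‖c * B A z z * c‖ := by
    intro t ht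
    have t0 : t ≠ 0 := by positivity
    have e : ∀ M : Matrix (Fin n) (Fin n) H,
        B M ((fun i => y i * (t : H)) + fun i => z i * (t⁻¹ • c))
          ((fun i => y i * (t : H)) + fun i => z i * (t⁻¹ • c)) =
        t ^ 2 • B M y y + (B M y z * c + c * B M z y) + (t⁻¹) ^ 2 • (c * B M z z * c) := by
      intro M
      simp only [B_add, B_l, B_r]
      simp only [f0_coe, map_smul, hc, Quaternion.coe_mul_eq_smul,
        Quaternion.mul_coe_eq_smul, smul_mul_assoc, mul_smul_comm, smul_smul,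
        mul_inv_cancel₀ t0, inv_mul_cancel₀ t0, one_smul, mul_assoc, sq]
      abel
    have h := hR _ ⟨(fun i => y i * (t : H)) + fun i => z i * (t⁻¹ • c), by
      rw [← B_one, e, h1, h2, h3, h4]
      simp only [Quaternion.coe_mul_eq_smul, Quaternion.mul_coe_eq_smul, c, smul_smul, mul_zero,
        zero_mul, smul_zero, zero_add, add_zero, ← add_smul]
      rw [show g * (2 * g)⁻¹ + g * (2 * g)⁻¹ = 1 by field_simp; ring, one_smul], e A⟩
    have h5 : ‖(t⁻¹) ^ 2 • (c * B A z z * c)‖ ≤ ‖c * B A z z * c‖ := by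
      rw [norm_smul]
      refine mul_le_of_le_one_left (norm_nonneg _) ?_
      rw [Real.norm_of_nonneg (by positivity)]
      exact pow_le_one₀ (by positivity) (inv_le_one_of_one_le₀ ht)
    have h6 : ‖t ^ 2 • B A y y‖ = t ^ 2 * ‖B A y y‖ := by
      rw [norm_smul, Real.norm_of_nonneg (by positivity)]
    generalize t ^ 2 • B A y y = a at *
    generalize B A y z * c + c * B A z y = b at *
    generalize (t⁻¹) ^ 2 • (c * B A z z * c) = d at *
    have := norm_sub_le (a + b + d - b) d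
    have := norm_sub_le (a + b + d) b
    rw [show a + b + d - b - d = a by abel] at *
    linarith
  by_contra h0
  have hp := norm_pos_iff.2 h0
  generalize R + ‖B A y z * c + c * B A z y‖ + ‖c * B A z z * c‖ = K at key
  generalize ‖B A y y‖ = s at *
  have k1 := key 1 le_rfl
  have : 0 < K / s := div_pos (by linarith) hp
  have k2 := key (K / s + 1) (by linarith)
  have : K / s * s = K := by field_simp
  nlinarith [mul_pos hp (mul_pos ‹0 < K / s› ‹0 < K / s›)]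

theorem key {α : H} (hα : f0 α = α) {A : Matrix (Fin n) (Fin n) H} (hb : IsBounded (W f0 α A))
    (u v : Fin n → H) (g : ℝ) (hg : g ≠ 0) (h1 : B 1 u u = g) (h2 : B 1 v v = -g)
    (h3 : B 1 u v = 0) (h4 : B 1 v u = 0) : B A u u + B A v v = 0 ∧ B A u v + B A v u = 0 := by
  have m1 : f0 (-1) = -1 := by ext <;> simp
  have a1 := key1 hα hb (u + v) (u + fun i => v i * (-1)) (2 * g) (by simpa using hg)
    (by simp only [B_add, h1, h2, h3, h4]; simp)
    (by simp only [B_add, B_l, B_r, m1, h1, h2, h3, h4]; simp)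
    (by simp only [B_add, B_l, B_r, m1, h1, h2, h3, h4]; simp [two_mul])
    (by simp only [B_add, B_l, B_r, m1, h1, h2, h3, h4]; simp [two_mul])
  have a2 := key1 hα hb (u + fun i => v i * (-1)) (u + v) (2 * g) (by simpa using hg)
    (by simp only [B_add, B_l, B_r, m1, h1, h2, h3, h4]; simp)
    (by simp only [B_add, h1, h2, h3, h4]; simp)
    (by simp only [B_add, B_l, B_r, m1, h1, h2, h3, h4]; simp [two_mul])
    (by simp only [B_add, B_l, B_r, m1, h1, h2, h3, h4]; simp [two_mul])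
  simp only [B_add, B_l, B_r, m1] at a1 a2
  simp only [Quaternion.ext_iff] at *
  simp at *
  refine ⟨⟨?_, ?_, ?_, ?_⟩, ?_, ?_, ?_, ?_⟩ <;> linarith [a1.1, a1.2.1, a1.2.2.1, a1.2.2.2,
    a2.1, a2.2.1, a2.2.2.1, a2.2.2.2]

theorem pair {α : H} (hα : f0 α = α) {A : Matrix (Fin n) (Fin n) H} (hb : IsBounded (W f0 α A))
    {i j : Fin n} (hij : i ≠ j) :
    ((A i i).re = (A j j).re ∧ (A i i).imI = -(A j j).imI ∧ (A i i).imJ = 0 ∧ (A i i).imK = 0) ∧
    ((A i j).re = -(A j i).re ∧ (A i j).imI = (A j i).imI ∧ (A i j).imJ = 0 ∧ (A i j).imK = 0) := by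
  have a1 := key hα hb (Pi.single i 1) (Pi.single j ⟨0, 0, 1, 0⟩) 1 one_ne_zero
    (by rw [B_single]; ext <;> simp) (by rw [B_single]; ext <;> simp)
    (by rw [B_single]; simp [hij]) (by rw [B_single]; simp [hij.symm])
  have a2 := key hα hb (Pi.single i 1) (Pi.single j ⟨0, 0, 0, 1⟩) 1 one_ne_zero
    (by rw [B_single]; ext <;> simp) (by rw [B_single]; ext <;> simp)
    (by rw [B_single]; simp [hij]) (by rw [B_single]; simp [hij.symm])
  simp only [B_single, Quaternion.ext_iff] at a1 a2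
  simp at a1 a2
  obtain ⟨⟨b1, b2, b3, b4⟩, b5, b6, b7, b8⟩ := a1
  obtain ⟨⟨c1, c2, c3, c4⟩, c5, c6, c7, c8⟩ := a2
  refine ⟨⟨?_, ?_, ?_, ?_⟩, ?_, ?_, ?_, ?_⟩ <;> linarith

theorem three {α : H} (hα : f0 α = α) {A : Matrix (Fin n) (Fin n) H} (hb : IsBounded (W f0 α A))
    {i j k : Fin n} (hij : i ≠ j) (hik : i ≠ k) (hjk : j ≠ k) : A i j = 0 ∧ (A i i).imI = 0 := by
  have a1 := key hα hb (Pi.single i ⟨3, 0, 0, 0⟩ + Pi.single j ⟨4, 0, 0, 0⟩) (Pi.single k ⟨0, 0, 5, 0⟩ + Pi.single k 0)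
    25 (by norm_num)
    (by simp only [B_add, B_single]; ext <;> simp [hij, hij.symm]; norm_num)
    (by simp only [B_add, B_single]; ext <;> simp; norm_num)
    (by simp only [B_add, B_single]; simp [hik, hjk])
    (by simp only [B_add, B_single]; simp [hik.symm, hjk.symm])
  have a2 := key hα hb (Pi.single i ⟨3, 0, 0, 0⟩ + Pi.single j ⟨0, 4, 0, 0⟩)
    (Pi.single k ⟨0, 0, 5, 0⟩ + Pi.single k 0)
    25 (by norm_num)
    (by simp only [B_add, B_single]; ext <;> simp [hij, hij.symm]; norm_num)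
    (by simp only [B_add, B_single]; ext <;> simp; norm_num)
    (by simp only [B_add, B_single]; simp [hik, hjk])
    (by simp only [B_add, B_single]; simp [hik.symm, hjk.symm])
  obtain ⟨⟨b1, b2, b3, b4⟩, b5, b6, b7, b8⟩ := pair hα hb hij
  obtain ⟨⟨c1, c2, c3, c4⟩, -⟩ := pair hα hb hik
  obtain ⟨⟨d1, d2, d3, d4⟩, -⟩ := pair hα hb hjk
  simp only [B_add, B_single, Quaternion.ext_iff] at a1 a2
  simp at a1 a2
  have e1 := a1.1.2.1
  have e2 := a2.1.2.1
  refine ⟨?_, by linarith⟩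
  ext <;> simp <;> linarith

theorem one_bdd (α : H) (A : Matrix (Fin 1) (Fin 1) H) : IsBounded (W f0 α A) := by
  refine isBounded_iff_forall_norm_le.2 ⟨‖α‖ * ‖A 0 0‖, ?_⟩
  rintro _ ⟨x, rfl, rfl⟩
  simp only [Fin.sum_univ_one, norm_mul]
  exact le_of_eq (by ring)

def I0 : H := ⟨0, 1, 0, 0⟩

theorem two_bdd (α : H) (a b c d : ℝ) :
    IsBounded (W f0 α !![(⟨a, b, 0, 0⟩ : H), ⟨c, d, 0, 0⟩; ⟨-c, d, 0, 0⟩, ⟨a, -b, 0, 0⟩]) := by
  refine isBounded_iff_forall_norm_le.2 ⟨‖a • α‖ + (|b| + |c| + |d|) * ‖α‖, ?_⟩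
  rintro _ ⟨x, rfl, rfl⟩
  simp only [Fin.sum_univ_two]
  generalize x 0 = u
  generalize x 1 = v
  simp only [Matrix.of_apply, Matrix.cons_val', Matrix.cons_val_zero, Matrix.cons_val_one,
    Matrix.cons_val_fin_one]
  set P := Quaternion.normSq u - Quaternion.normSq v with hP
  set Q := 2 * (u * star v).imI with hQ
  set T := 2 * (u * star v).re with hT
  have e : f0 u * ⟨a, b, 0, 0⟩ * u + f0 u * ⟨c, d, 0, 0⟩ * v +
      (f0 v * ⟨-c, d, 0, 0⟩ * u + f0 v * ⟨a, -b, 0, 0⟩ * v) =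
      a • (f0 u * u + f0 v * v) + (b * P - c * Q + d * T) • I0 := by
    ext <;> simp [hP, hQ, hT, Quaternion.normSq_def', I0] <;> ring
  have e2 : P ^ 2 + Q ^ 2 + T ^ 2 = ‖f0 u * u + f0 v * v‖ ^ 2 := by
    rw [sq ‖_‖, ← Quaternion.normSq_eq_norm_mul_self]
    simp [hP, hQ, hT, Quaternion.normSq_def']; ring
  have n1 : ‖I0‖ = 1 := by
    have := Quaternion.normSq_eq_norm_mul_self I0
    rw [show Quaternion.normSq I0 = 1 by simp [Quaternion.normSq_def', I0]] at this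
    nlinarith [norm_nonneg I0]
  rw [e]
  refine (norm_add_le _ _).trans (add_le_add le_rfl ?_)
  rw [norm_smul, n1, mul_one, Real.norm_eq_abs]
  have N := norm_nonneg (f0 u * u + f0 v * v)
  generalize ‖f0 u * u + f0 v * v‖ = r at *
  have p1 : |P| ≤ r := abs_le_of_sq_le_sq' (by nlinarith) N |> abs_le.2
  have p2 : |Q| ≤ r := abs_le_of_sq_le_sq' (by nlinarith) N |> abs_le.2
  have p3 : |T| ≤ r := abs_le_of_sq_le_sq' (by nlinarith) N |> abs_le.2
  have := abs_add_le (b * P - c * Q) (d * T)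
  have := abs_sub (b * P) (c * Q)
  simp only [abs_mul] at *
  nlinarith [mul_le_mul_of_nonneg_left p1 (abs_nonneg b), mul_le_mul_of_nonneg_left p2 (abs_nonneg c),
    mul_le_mul_of_nonneg_left p3 (abs_nonneg d)]

theorem result : ∀ (φ : H →ₗ[ℝ] H), (∀ x y, φ (x * y) = φ y * φ x) → (∀ x, φ (φ x) = x) →
    ∀ q₁ q₂ q₃ : H, Triple q₁ q₂ q₃ → φ q₁ = -q₁ → φ q₂ = q₂ → φ q₃ = q₃ →
    ∀ α : H, φ α = α → α ≠ 0 →
    (∀ A : Matrix (Fin 1) (Fin 1) H, IsBounded (W φ α A)) ∧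
    (∀ A : Matrix (Fin 2) (Fin 2) H, IsBounded (W φ α A) ↔ ∃ a b c d : ℝ,
      A = !![(a : H) + b • q₁, (c : H) + d • q₁; -(c : H) + d • q₁, (a : H) - b • q₁]) ∧
    (∀ n : ℕ, 3 ≤ n → ∀ A : Matrix (Fin n) (Fin n) H, IsBounded (W φ α A) ↔
      ∃ a : ℝ, A = a • (1 : Matrix (Fin n) (Fin n) H)) := by
  rintro φ hm - q₁ q₂ q₃ ⟨t1, t2, t3, t4, t5, -⟩ h1 h2 h3 α hα -
  let b : QuaternionAlgebra.Basis H (-1 : ℝ) (0 : ℝ) (-1 : ℝ) :=
    ⟨q₁, q₂, q₃, by simp [t1], by simp [t2], t4, by simp [t5]⟩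
  let ψ : H →ₐ[ℝ] H := b.liftHom
  have ψa : ∀ x : H, ψ x = (x.re : H) + x.imI • q₁ + x.imJ • q₂ + x.imK • q₃ := fun x => rfl
  have inj : Function.Injective ψ := ψ.toRingHom.injective
  have sur : Function.Surjective ψ :=
    (LinearMap.injective_iff_surjective (f := ψ.toLinearMap)).1 inj
  have φ1 : φ 1 = 1 := by
    have := hm q₁ q₁
    rw [t1, h1, map_neg, neg_mul_neg, t1] at this
    exact neg_injective this
  have φψ : ∀ x, φ (ψ x) = ψ (f0 x) := fun x => by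
    have : ∀ r : ℝ, φ (r : H) = r := fun r => by
      rw [← mul_one (r : H), Quaternion.coe_mul_eq_smul, map_smul, φ1]
    simp [ψa, h1, h2, h3, this]
  obtain ⟨α, rfl⟩ := sur α
  have hα0 : f0 α = α := inj (by rw [← φψ, hα])
  have red : ∀ (n : ℕ) (A : Matrix (Fin n) (Fin n) H),
      IsBounded (W φ (ψ α) (A.map ψ)) ↔ IsBounded (W f0 α A) := by
    intro n A
    have : W φ (ψ α) (A.map ψ) = ψ '' W f0 α A := by
      ext w
      constructor
      · rintro ⟨x, hx, rfl⟩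
        choose y hy using fun i => sur (x i)
        refine ⟨_, ⟨y, inj ?_, rfl⟩, ?_⟩
        · simp only [← hx, map_sum, map_mul, ← φψ, hy]
        · simp only [map_sum, map_mul, ← φψ, hy, Matrix.map_apply]
      · rintro ⟨_, ⟨y, rfl, rfl⟩, rfl⟩
        exact ⟨fun i => ψ (y i), by simp only [map_sum, map_mul, φψ],
          by simp only [map_sum, map_mul, φψ, Matrix.map_apply]⟩
    rw [this]
    let E := (LinearEquiv.ofBijective ψ.toLinearMap ⟨inj, sur⟩).toContinuousLinearEquiv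
    refine ⟨fun h => ?_, fun h => E.lipschitz.isBounded_image h⟩
    have := E.symm.lipschitz.isBounded_image h
    rwa [show (ψ '' W f0 α A) = E '' W f0 α A from rfl, E.symm_image_image] at this
  have sM : ∀ (n : ℕ) (A : Matrix (Fin n) (Fin n) H), ∃ A' : Matrix (Fin n) (Fin n) H,
      A = A'.map ψ := fun n A => by
    choose y hy using fun i j => sur (A i j)
    exact ⟨Matrix.of y, by ext i j : 1; simp [hy]⟩
  refine ⟨fun A => ?_, fun A => ⟨fun h => ?_, ?_⟩, fun n hn A => ⟨fun h => ?_, ?_⟩⟩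
  · obtain ⟨A, rfl⟩ := sM _ A
    exact (red _ _).2 (one_bdd _ _)
  · obtain ⟨A, rfl⟩ := sM _ A
    obtain ⟨⟨b1, b2, b3, b4⟩, b5, b6, b7, b8⟩ := pair hα0 ((red _ _).1 h) (i := 0) (j := 1) (by simp)
    obtain ⟨⟨c1, c2, c3, c4⟩, c5, c6, c7, c8⟩ := pair hα0 ((red _ _).1 h) (i := 1) (j := 0) (by simp)
    refine ⟨(A 0 0).re, (A 0 0).imI, (A 0 1).re, (A 0 1).imI, ?_⟩
    ext i j : 1
    fin_cases i <;> fin_cases j <;> simp [ψa, b3, b4, b7, b8, c1, c2, c3, c4, c5, c6, c7, c8,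
      sub_eq_add_neg]
  · rintro ⟨a, b, c, d, rfl⟩
    convert (red _ _).2 (two_bdd α a b c d) using 2
    ext i j : 1
    fin_cases i <;> fin_cases j <;> simp [ψa, sub_eq_add_neg]
  · obtain ⟨A, rfl⟩ := sM _ A
    have h := (red _ _).1 h
    have ex : ∀ i j : Fin n, ∃ k, i ≠ k ∧ j ≠ k := fun i j => by
      by_contra! hc
      have : (Finset.univ : Finset (Fin n)) ⊆ {i, j} := fun k _ => by
        by_cases e : i = k
        · simp [e]
        · simp [hc k e]
      have := (Finset.card_le_card this).trans (Finset.card_le_two)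
      simp at this
      omega
    let o : Fin n := ⟨0, by omega⟩
    refine ⟨(A o o).re, ?_⟩
    ext i j : 1
    rw [Matrix.map_apply, Matrix.smul_apply]
    by_cases e : i = j
    · subst e
      obtain ⟨j, hj, -⟩ := ex i i
      obtain ⟨k, k1, k2⟩ := ex i j
      have a1 := (three hα0 h hj k1 k2).2
      obtain ⟨⟨-, -, a2, a3⟩, -⟩ := pair hα0 h hj
      have a4 : (A i i).re = (A o o).re := by
        by_cases e : i = o
        · rw [e]
        · exact (pair hα0 h e).1.1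
      simp [ψa, a1, a2, a3, a4, ← Quaternion.coe_mul_eq_smul]
    · obtain ⟨k, k1, k2⟩ := ex i j
      simp [(three hα0 h e k1 k2).1, e]
  · rintro ⟨a, rfl⟩
    refine (Set.subsingleton_singleton (a := a • ψ α)).finite.isBounded.subset ?_
    rintro _ ⟨x, hx, rfl⟩
    simp [← hx, Matrix.one_apply, Finset.smul_sum]

end Pool.Agent.Results.MP_dceaed_al.Classification
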